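import Mathlib

/-!
Definitions for the degree of twisted commutativity.
-/

namespace Pool.Agent.Lib.MP_13fe47_al

/-- The ball of radius `n`: products of at most `n` elements of `X ∪ X⁻¹`. -/
def wordBall {G : Type*} [Group G] (X : Finset G) (n : ℕ) : Set G :=
  {g | ∃ l : List G, l.length ≤ n ∧ (∀ x ∈ l, x ∈ X ∨ x⁻¹ ∈ X) ∧ l.prod = g}

/-- The degree of twisted commutativity of `G` with respect to `X` and `φ`. -/
noncomputable def tdcGen {G : Type*} [Group G] (X : Finset G) (φ : G →* G) : ℝ :=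
  Filter.limsup (fun n : ℕ =>
    (Set.ncard {p : G × G | p.1 ∈ wordBall X n ∧ p.2 ∈ wordBall X n ∧ p.1 * p.2 = p.2 * φ p.1} : ℝ)
      / (Set.ncard (wordBall X n) : ℝ) ^ 2) Filter.atTop

/-- The degree of twisted commutativity of a finite group `F` with respect to `ψ`. -/
noncomputable def tdcFin {F : Type*} [Group F] (ψ : F →* F) : ℝ :=
  (Set.ncard {p : F × F | p.1 * p.2 = p.2 * ψ p.1} : ℝ) / (Nat.card F : ℝ) ^ 2

/-- The infimum of `tdc (φ̄, G / N)` over the `φ`-invariant normal subgroups `N` of finite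
index, `φ̄` being the induced endomorphism of `G / N`. -/
noncomputable def quotInf {G : Type*} [Group G] (φ : G →* G) : ℝ :=
  sInf {t : ℝ | ∃ (N : Subgroup G) (_ : N.Normal) (_ : N.FiniteIndex) (h : N ≤ N.comap φ),
    t = tdcFin (QuotientGroup.map N N φ h)}

end Pool.Agent.Lib.MP_13fe47_al
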