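import Mathlib

-- part Pool.Agent.Lib.MP_13fe47_al.Growth
section

/-!
Balls in a finitely generated virtually abelian group form a Følner sequence.
-/

open Finset Filter Topology
open scoped Pointwise

namespace Pool.Agent.Lib.MP_13fe47_al

section Comm

variable {C : Type*} [CommGroup C] [DecidableEq C]

theorem mem_pair_pow (y x : C) (n : ℕ) :
    x ∈ ({1, y} : Finset C) ^ n ↔ ∃ e ≤ n, x = y ^ e := by
  induction n generalizing x with
  | zero => simp
  | succ n ih =>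
    rw [pow_succ, Finset.mem_mul]
    constructor
    · rintro ⟨a, ha, b, hb, rfl⟩
      obtain ⟨e, he, rfl⟩ := (ih a).1 ha
      simp only [mem_insert, mem_singleton] at hb
      rcases hb with rfl | rfl
      · exact ⟨e, by omega, by simp⟩
      · exact ⟨e + 1, by omega, by rw [pow_succ]⟩
    · rintro ⟨e, he, rfl⟩
      rcases Nat.lt_or_ge e (n + 1) with h | h
      · exact ⟨y ^ e, (ih _).2 ⟨e, by omega, rfl⟩, 1, by simp, by simp⟩
      · have : e = n + 1 := by omega
        subst this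
        exact ⟨y ^ n, (ih _).2 ⟨n, le_rfl, rfl⟩, y, by simp, by rw [pow_succ]⟩

/-- Uniform doubling property of the powers of a finite set. -/
def Dbl (A : Finset C) : Prop :=
  ∃ c : ℕ, ∀ m : ℕ, ∃ D : Finset C, D.card ≤ c ∧ A ^ m * A ^ m ⊆ D * A ^ m

theorem dbl_pair (y : C) : Dbl ({1, y} : Finset C) := by
  refine ⟨2, fun m => ⟨{1, y ^ m}, Finset.card_le_two, ?_⟩⟩
  intro x hx
  rw [← pow_add, mem_pair_pow] at hx
  obtain ⟨e, he, rfl⟩ := hx
  rw [Finset.mem_mul]
  rcases Nat.lt_or_ge e m with h | h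
  · exact ⟨1, by simp, y ^ e, (mem_pair_pow _ _ _).2 ⟨e, h.le, rfl⟩, by simp⟩
  · refine ⟨y ^ m, by simp, y ^ (e - m), (mem_pair_pow _ _ _).2 ⟨e - m, by omega, rfl⟩, ?_⟩
    rw [← pow_add]
    congr 1
    omega

theorem dbl_mul {A B : Finset C} (hA : Dbl A) (hB : Dbl B) : Dbl (A * B) := by
  obtain ⟨c, hc⟩ := hA
  obtain ⟨d, hd⟩ := hB
  refine ⟨c * d, fun m => ?_⟩
  obtain ⟨D, hD, hD'⟩ := hc m
  obtain ⟨E, hE, hE'⟩ := hd m
  refine ⟨D * E, Finset.card_mul_le.trans (Nat.mul_le_mul hD hE), ?_⟩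
  rw [mul_pow]
  calc A ^ m * B ^ m * (A ^ m * B ^ m) = (A ^ m * A ^ m) * (B ^ m * B ^ m) := by
        rw [mul_mul_mul_comm]
    _ ⊆ (D * A ^ m) * (E * B ^ m) := Finset.mul_subset_mul hD' hE'
    _ = D * E * (A ^ m * B ^ m) := by rw [mul_mul_mul_comm]

theorem exists_dbl_superset (Y : Finset C) : ∃ P : Finset C, Y ⊆ P ∧ 1 ∈ P ∧ Dbl P := by
  induction Y using Finset.induction_on with
  | empty => exact ⟨{1, 1}, by simp, by simp, dbl_pair 1⟩
  | insert y Y _ ih =>
    obtain ⟨P, hY, h1, hP⟩ := ih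
    refine ⟨{1, y} * P, ?_, ?_, dbl_mul (dbl_pair y) hP⟩
    · intro x hx
      rw [Finset.mem_insert] at hx
      rw [Finset.mem_mul]
      rcases hx with rfl | hx
      · exact ⟨x, by simp, 1, h1, by simp⟩
      · exact ⟨1, by simp, x, hY hx, by simp⟩
    · rw [Finset.mem_mul]
      exact ⟨1, by simp, 1, h1, by simp⟩

theorem dbl_iter {A D : Finset C} {m : ℕ} (h : A ^ m * A ^ m ⊆ D * A ^ m) (k : ℕ) :
    A ^ ((k + 1) * m) ⊆ D ^ k * A ^ m := by
  induction k with
  | zero => simp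
  | succ k ih =>
    calc A ^ ((k + 1 + 1) * m) = A ^ ((k + 1) * m) * A ^ m := by
          rw [← pow_add]; congr 1; ring
      _ ⊆ D ^ k * A ^ m * A ^ m := Finset.mul_subset_mul_right ih
      _ = D ^ k * (A ^ m * A ^ m) := by rw [mul_assoc]
      _ ⊆ D ^ k * (D * A ^ m) := Finset.mul_subset_mul_left h
      _ = D ^ (k + 1) * A ^ m := by rw [pow_succ, mul_assoc]

end Comm

section Grp

variable {G : Type*} [Group G] [DecidableEq G]

theorem exists_subset_pow (S : Finset G) (h1 : 1 ∈ S) (hgen : ∀ g : G, ∃ n, g ∈ S ^ n)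
    (Y : Finset G) : ∃ L, 1 ≤ L ∧ Y ⊆ S ^ L := by
  choose f hf using hgen
  refine ⟨Y.sup f + 1, by omega, fun y hy => ?_⟩
  have : f y ≤ Y.sup f := Finset.le_sup hy
  exact Finset.pow_subset_pow_right h1 (by omega) (hf y)

theorem schreier {C : Type*} [CommGroup C] [DecidableEq C] (ι : C →* G) [ι.range.FiniteIndex]
    (S : Finset G) :
    ∃ (T : Finset G) (Y : Finset C), ∀ n, S ^ n ⊆ T * (Y ^ n).image ι := by
  classical
  have : Fintype (G ⧸ ι.range) := Fintype.ofFinite _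
  let T : Finset G := insert 1 (Finset.univ.image (fun c : G ⧸ ι.range => c.out))
  have hex : ∀ g : G, ∃ c : C, ι c = ((g : G ⧸ ι.range).out)⁻¹ * g := by
    intro g
    have : ((g : G ⧸ ι.range).out)⁻¹ * g ∈ ι.range := by
      rw [← QuotientGroup.eq]
      exact QuotientGroup.out_eq' _
    exact this
  choose f hf using hex
  refine ⟨T, (S * T).image f, fun n => ?_⟩
  induction n with
  | zero =>
    intro x hx
    simp only [pow_zero, Finset.mem_one] at hx
    subst hx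
    rw [Finset.mem_mul]
    exact ⟨1, by simp [T], 1, by simp, by simp⟩
  | succ n ih =>
    intro x hx
    rw [pow_succ', Finset.mem_mul] at hx
    obtain ⟨s, hs, g, hg, rfl⟩ := hx
    have := ih hg
    rw [Finset.mem_mul] at this
    obtain ⟨t, ht, z, hz, rfl⟩ := this
    rw [Finset.mem_image] at hz
    obtain ⟨c, hc, rfl⟩ := hz
    rw [Finset.mem_mul]
    refine ⟨((s * t : G) : G ⧸ ι.range).out, by simp [T], ι (f (s * t) * c), ?_, ?_⟩
    · apply Finset.mem_image_of_mem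
      rw [pow_succ']
      exact Finset.mul_mem_mul (Finset.mem_image_of_mem _ (Finset.mul_mem_mul hs ht)) hc
    · rw [map_mul, hf]
      group

theorem doubling {C : Type*} [CommGroup C] (ι : C →* G) [ι.range.FiniteIndex]
    (S : Finset G) (h1 : 1 ∈ S) (hgen : ∀ g : G, ∃ n, g ∈ S ^ n) :
    ∃ K : ℕ, ∀ r, (S ^ (3 * r)).card ≤ K * (S ^ r).card := by
  classical
  obtain ⟨T, Y, hTY⟩ := schreier ι S
  obtain ⟨P, hYP, hP1, c, hc⟩ := exists_dbl_superset Y
  obtain ⟨L, hL, hPL⟩ := exists_subset_pow S h1 hgen (P.image ι)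
  refine ⟨T.card * (P ^ (3 * L)).card * c ^ (3 * L), fun r => ?_⟩
  set m := r / L with hm
  obtain ⟨D, hD, hD'⟩ := hc m
  have h3 : 3 * r ≤ 3 * L + (3 * L + 1) * m := by
    have := Nat.lt_div_mul_add (a := r) (b := L) (by omega)
    rw [← hm] at this
    nlinarith
  have hsub : Y ^ (3 * r) ⊆ P ^ (3 * L) * D ^ (3 * L) * P ^ m := by
    calc Y ^ (3 * r) ⊆ P ^ (3 * r) := Finset.pow_subset_pow_left hYP
      _ ⊆ P ^ (3 * L + (3 * L + 1) * m) := Finset.pow_subset_pow_right hP1 h3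
      _ = P ^ (3 * L) * P ^ ((3 * L + 1) * m) := pow_add _ _ _
      _ ⊆ P ^ (3 * L) * (D ^ (3 * L) * P ^ m) := Finset.mul_subset_mul_left (dbl_iter hD' _)
      _ = _ := by rw [mul_assoc]
  have hPm : (P ^ m).image ι ⊆ S ^ r := by
    calc (P ^ m).image ι = (P.image ι) ^ m := Finset.image_pow ι P m
      _ ⊆ (S ^ L) ^ m := Finset.pow_subset_pow_left hPL
      _ = S ^ (L * m) := by rw [pow_mul]
      _ ⊆ S ^ r := Finset.pow_subset_pow_right h1 (by rw [hm]; exact Nat.mul_div_le _ _)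
  have hsub2 : S ^ (3 * r) ⊆ T * ((P ^ (3 * L) * D ^ (3 * L)).image ι * S ^ r) := by
    refine (hTY _).trans (Finset.mul_subset_mul_left ?_)
    calc (Y ^ (3 * r)).image ι ⊆ (P ^ (3 * L) * D ^ (3 * L) * P ^ m).image ι :=
          Finset.image_subset_image hsub
      _ = (P ^ (3 * L) * D ^ (3 * L)).image ι * (P ^ m).image ι := Finset.image_mul ι
      _ ⊆ _ := Finset.mul_subset_mul_left hPm
  calc (S ^ (3 * r)).card ≤ (T * ((P ^ (3 * L) * D ^ (3 * L)).image ι * S ^ r)).card :=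
        Finset.card_le_card hsub2
    _ ≤ T.card * ((P ^ (3 * L) * D ^ (3 * L)).image ι * S ^ r).card := Finset.card_mul_le
    _ ≤ T.card * (((P ^ (3 * L) * D ^ (3 * L)).image ι).card * (S ^ r).card) :=
        Nat.mul_le_mul_left _ Finset.card_mul_le
    _ ≤ T.card * (((P ^ (3 * L)).card * c ^ (3 * L)) * (S ^ r).card) := by
        refine Nat.mul_le_mul_left _ (Nat.mul_le_mul_right _ ?_)
        refine Finset.card_image_le.trans (Finset.card_mul_le.trans ?_)
        exact Nat.mul_le_mul_left _ (Finset.card_pow_le.trans (Nat.pow_le_pow_left hD _))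
    _ = _ := by ring

theorem shell (S : Finset G) (hinv : S⁻¹ = S) (m r : ℕ) :
    (S ^ (m + 4 * r) \ S ^ (m + 3 * r)).card * (S ^ r).card ≤
      (S ^ (m + 3 * r) \ S ^ m).card * (S ^ (3 * r)).card := by
  have hdec : ∀ g : G, ∃ z : G, g ∈ S ^ (m + 4 * r) →
      z ∈ S ^ (m + 2 * r) ∧ z⁻¹ * g ∈ S ^ (2 * r) := by
    intro g
    by_cases hg : g ∈ S ^ (m + 4 * r)
    · have : m + 4 * r = (m + 2 * r) + 2 * r := by ring
      rw [this, pow_add, Finset.mem_mul] at hg
      obtain ⟨z, hz, h, hh, rfl⟩ := hg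
      exact ⟨z, fun _ => ⟨hz, by simpa using hh⟩⟩
    · exact ⟨1, fun h => absurd h hg⟩
  choose z hz using hdec
  have hinvr : ∀ u ∈ S ^ r, u⁻¹ ∈ S ^ r := by
    intro u hu
    have : (S ^ r)⁻¹ = S ^ r := by rw [← inv_pow, hinv]
    rw [← this]
    exact Finset.inv_mem_inv hu
  rw [← Finset.card_product, ← Finset.card_product]
  refine Finset.card_le_card_of_injOn
    (fun p : G × G => (z p.1 * p.2, p.2⁻¹ * ((z p.1)⁻¹ * p.1))) ?_ ?_
  · rintro ⟨g, u⟩ hp
    simp only [Finset.coe_product, Finset.coe_sdiff, Set.mem_prod, Set.mem_sdiff,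
      Finset.mem_coe] at hp ⊢
    obtain ⟨⟨hg, hg'⟩, hu⟩ := hp
    obtain ⟨h1, h2⟩ := hz g hg
    have h3 : u⁻¹ * ((z g)⁻¹ * g) ∈ S ^ (3 * r) := by
      have : 3 * r = r + 2 * r := by ring
      rw [this, pow_add]
      exact Finset.mul_mem_mul (hinvr u hu) h2
    refine ⟨⟨?_, ?_⟩, h3⟩
    · have : m + 3 * r = (m + 2 * r) + r := by ring
      rw [this, pow_add]
      exact Finset.mul_mem_mul h1 hu
    · intro h
      apply hg'
      have : g = (z g * u) * (u⁻¹ * ((z g)⁻¹ * g)) := by group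
      rw [this, pow_add]
      exact Finset.mul_mem_mul h h3
  · rintro ⟨g, u⟩ _ ⟨g', u'⟩ _ h
    simp only [Prod.mk.injEq] at h
    obtain ⟨h1, h2⟩ := h
    have hg : g = g' := by
      calc g = (z g * u) * (u⁻¹ * ((z g)⁻¹ * g)) := by group
        _ = (z g' * u') * (u'⁻¹ * ((z g')⁻¹ * g')) := by rw [h1, h2]
        _ = g' := by group
    subst hg
    have : u = u' := mul_left_cancel h1
    rw [this]

theorem card_pow_pos (S : Finset G) (h1 : 1 ∈ S) (n : ℕ) : 0 < (S ^ n).card :=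
  Finset.card_pos.2 ⟨1, Finset.one_mem_pow h1⟩

theorem folner_step (S : Finset G) (h1 : 1 ∈ S) (hinv : S⁻¹ = S) (K : ℕ)
    (hK : ∀ r, (S ^ (3 * r)).card ≤ K * (S ^ r).card) :
    Tendsto (fun n : ℕ => ((S ^ (n + 1)).card : ℝ) / (S ^ n).card) atTop (𝓝 1) := by
  set b : ℕ → ℝ := fun n => ((S ^ n).card : ℝ) with hb
  have hpos : ∀ n, 0 < b n := fun n => by
    simp only [hb]; exact_mod_cast card_pow_pos S h1 n
  have hmono : ∀ {m n}, m ≤ n → b m ≤ b n := fun {m n} h => by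
    simp only [hb]; exact_mod_cast Finset.card_le_card (Finset.pow_subset_pow_right h1 h)
  have hsd : ∀ {m n}, m ≤ n → (((S ^ n \ S ^ m).card : ℕ) : ℝ) = b n - b m := fun {m n} h => by
    have := Finset.card_sdiff_add_card_eq_card (Finset.pow_subset_pow_right h1 h)
    simp only [hb]
    rw [← this]
    push_cast
    ring
  have hshell : ∀ m r, b (m + 4 * r) - b (m + 3 * r) ≤ K * (b (m + 3 * r) - b m) := by
    intro m r
    have h := shell S hinv m r
    have h2 : (S ^ (m + 4 * r) \ S ^ (m + 3 * r)).card * (S ^ r).card ≤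
        ((S ^ (m + 3 * r) \ S ^ m).card * K) * (S ^ r).card := by
      refine h.trans ?_
      rw [mul_assoc]
      exact Nat.mul_le_mul_left _ (hK r)
    have h3 := Nat.le_of_mul_le_mul_right h2 (card_pow_pos S h1 r)
    rw [← hsd (by omega), ← hsd (by omega)]
    rw [mul_comm _ K] at h3
    exact_mod_cast h3
  have hK0 : (0 : ℝ) ≤ K := Nat.cast_nonneg K
  have hiter : ∀ j n : ℕ, 4 ^ j ≤ n → j * (b n - b (n - 1)) ≤ K * (b n - b (n - 4 ^ j)) := by
    intro j
    induction j with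
    | zero =>
      intro n _
      have := hmono (Nat.sub_le n (4 ^ 0))
      simp only [Nat.cast_zero, zero_mul]
      exact mul_nonneg hK0 (by linarith)
    | succ j ih =>
      intro n hn
      have h4 : 1 ≤ 4 ^ j := Nat.one_le_pow _ _ (by norm_num)
      rw [pow_succ] at hn
      have h := hshell (n - 4 ^ (j + 1)) (4 ^ j)
      have e1 : n - 4 ^ (j + 1) + 4 * 4 ^ j = n := by rw [pow_succ]; omega
      have e2 : n - 4 ^ (j + 1) + 3 * 4 ^ j = n - 4 ^ j := by rw [pow_succ]; omega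
      rw [e1, e2] at h
      have h5 := ih n (by omega)
      have h6 : b (n - 4 ^ j) ≤ b (n - 1) := hmono (by omega)
      push_cast
      nlinarith
  have hstep : ∀ n, b (n + 1) ≤ S.card * b n := by
    intro n
    simp only [hb]
    rw [pow_succ']
    exact_mod_cast Finset.card_mul_le
  rw [Metric.tendsto_atTop]
  intro ε hε
  obtain ⟨j, hj⟩ := exists_nat_gt (K * S.card / ε)
  refine ⟨4 ^ j, fun n hn => ?_⟩
  have h := hiter j (n + 1) (by omega)
  simp only [Nat.add_sub_cancel] at h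
  have hp := hpos n
  have hm : b n ≤ b (n + 1) := hmono (by omega)
  have hq := hpos (n + 1 - 4 ^ j)
  have h7 : j * (b (n + 1) - b n) ≤ K * S.card * b n := by
    have := hstep n
    nlinarith
  rw [div_lt_iff₀ hε] at hj
  change dist (b (n + 1) / b n) 1 < ε
  rw [Real.dist_eq, abs_of_nonneg (by rw [sub_nonneg, le_div_iff₀ hp]; linarith),
    sub_lt_iff_lt_add, div_lt_iff₀ hp]
  by_contra hcon
  push Not at hcon
  have hj0 : (0 : ℝ) ≤ j := Nat.cast_nonneg j
  have h8 : ε * b n ≤ b (n + 1) - b n := by linarith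
  have h9 : j * (ε * b n) ≤ K * S.card * b n := le_trans (mul_le_mul_of_nonneg_left h8 hj0) h7
  have h10 : K * S.card * b n < j * ε * b n := mul_lt_mul_of_pos_right hj hp
  nlinarith

theorem folner_add (S : Finset G) (h1 : 1 ∈ S)
    (h : Tendsto (fun n : ℕ => ((S ^ (n + 1)).card : ℝ) / (S ^ n).card) atTop (𝓝 1)) (k : ℕ) :
    Tendsto (fun n : ℕ => ((S ^ (n + k)).card : ℝ) / (S ^ n).card) atTop (𝓝 1) := by
  have hpos : ∀ n, (0 : ℝ) < (S ^ n).card := fun n => by exact_mod_cast card_pow_pos S h1 n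
  induction k with
  | zero =>
    refine tendsto_const_nhds.congr fun n => ?_
    rw [add_zero, div_self (hpos n).ne']
  | succ k ih =>
    have h2 := ((tendsto_add_atTop_iff_nat k).2 h).mul ih
    rw [mul_one] at h2
    refine h2.congr fun n => ?_
    have := hpos n
    have := hpos (n + k)
    rw [← add_assoc]
    field_simp

end Grp

end Pool.Agent.Lib.MP_13fe47_al
end

-- part Pool.Agent.Lib.MP_13fe47_al.Equidist
section

/-!
Følner balls equidistribute in finite quotients.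
-/

open Finset Filter Topology
open scoped Pointwise

namespace Pool.Agent.Lib.MP_13fe47_al

variable {G : Type*} [Group G] [DecidableEq G]

theorem fiber_compare {F : Type*} [Group F] [DecidableEq F] (π : G →* F) (S : Finset G)
    (h1 : 1 ∈ S) (g : G) (k : ℕ) (hg : g ∈ S ^ k) (c : F) (n : ℕ) :
    (((S ^ n).filter (fun x => π x = c)).card : ℝ) ≤
      ((S ^ n).filter (fun x => π x = c * π g)).card +
        (((S ^ (n + k)).card : ℝ) - (S ^ n).card) := by
  have hsub : S ^ n ⊆ S ^ (n + k) := Finset.pow_subset_pow_right h1 (by omega)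
  have h2 : ((S ^ n).filter (fun x => π x = c)).card ≤
      ((S ^ n).filter (fun x => π x = c * π g) ∪ (S ^ (n + k) \ S ^ n)).card := by
    refine Finset.card_le_card_of_injOn (fun x => x * g) ?_ ?_
    · intro x hx
      simp only [Finset.coe_filter, Set.mem_ofPred_eq] at hx
      simp only [Finset.coe_union, Finset.coe_filter, Finset.coe_sdiff, Set.mem_union,
        Set.mem_ofPred_eq, Set.mem_sdiff, Finset.mem_coe]
      by_cases h : x * g ∈ S ^ n
      · left
        exact ⟨h, by rw [map_mul, hx.2]⟩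
      · right
        refine ⟨?_, h⟩
        rw [pow_add]
        exact Finset.mul_mem_mul hx.1 hg
    · intro x _ y _ h
      exact mul_right_cancel h
  have h3 := h2.trans (Finset.card_union_le _ _)
  have h4 := Finset.card_sdiff_add_card_eq_card hsub
  have h5 : (((S ^ (n + k) \ S ^ n).card : ℕ) : ℝ) = ((S ^ (n + k)).card : ℝ) - (S ^ n).card := by
    rw [← h4]; push_cast; ring
  rw [← h5]
  exact_mod_cast h3

theorem equidist {F : Type*} [Group F] [DecidableEq F] [Fintype F] (π : G →* F)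
    (hπ : Function.Surjective π) (S : Finset G) (h1 : 1 ∈ S) (hgen : ∀ g : G, ∃ n, g ∈ S ^ n)
    (h : Tendsto (fun n : ℕ => ((S ^ (n + 1)).card : ℝ) / (S ^ n).card) atTop (𝓝 1)) (c : F) :
    Tendsto (fun n : ℕ => (((S ^ n).filter (fun x => π x = c)).card : ℝ) / (S ^ n).card) atTop
      (𝓝 (1 / Fintype.card F)) := by
  have hpos : ∀ n, (0 : ℝ) < (S ^ n).card := fun n => by exact_mod_cast card_pow_pos S h1 n
  set β : F → ℕ → ℝ :=
    fun c n => (((S ^ n).filter (fun x => π x = c)).card : ℝ) / (S ^ n).card with hβ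
  have hone : ∀ c d : F, ∃ e : ℕ → ℝ, Tendsto e atTop (𝓝 0) ∧ ∀ n, β c n - β d n ≤ e n := by
    intro c d
    obtain ⟨g, hg⟩ := hπ (c⁻¹ * d)
    obtain ⟨k, hk⟩ := hgen g
    refine ⟨fun n => ((S ^ (n + k)).card : ℝ) / (S ^ n).card - 1, ?_, fun n => ?_⟩
    · have := (folner_add S h1 h k).sub_const 1
      simpa using this
    · have h2 := fiber_compare π S h1 g k hk c n
      rw [hg, mul_inv_cancel_left] at h2
      have hp := hpos n
      simp only [hβ]
      rw [← sub_div, div_sub_one hp.ne']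
      exact div_le_div_of_nonneg_right (by linarith) hp.le
  have hdiff : ∀ d : F, Tendsto (fun n => β c n - β d n) atTop (𝓝 0) := by
    intro d
    obtain ⟨e, he, he'⟩ := hone c d
    obtain ⟨e2, he2, he2'⟩ := hone d c
    have hneg : Tendsto (fun n => - e2 n) atTop (𝓝 0) := by simpa using he2.neg
    refine tendsto_of_tendsto_of_tendsto_of_le_of_le hneg he (fun n => ?_) he'
    have := he2' n
    simp only
    linarith
  have hsum : ∀ n, ∑ d : F, β d n = 1 := by
    intro n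
    simp only [hβ]
    rw [← Finset.sum_div, div_eq_one_iff_eq (hpos n).ne']
    have := Finset.card_eq_sum_card_fiberwise (s := S ^ n) (t := (Finset.univ : Finset F))
      (f := π) (fun x _ => Finset.mem_univ _)
    exact_mod_cast this.symm
  have hF : (0 : ℝ) < Fintype.card F := by exact_mod_cast Fintype.card_pos
  have h3 : Tendsto (fun n => (∑ d : F, (β c n - β d n) + 1) / Fintype.card F) atTop
      (𝓝 ((∑ _d : F, (0 : ℝ) + 1) / Fintype.card F)) :=
    ((tendsto_finsetSum _ fun d _ => hdiff d).add_const 1).div_const _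
  simp only [Finset.sum_const_zero, zero_add] at h3
  refine h3.congr fun n => ?_
  rw [Finset.sum_sub_distrib, hsum, Finset.sum_const, Finset.card_univ, nsmul_eq_mul]
  change _ = β c n
  field_simp
  ring

theorem equidist₂ {F : Type*} [Group F] [DecidableEq F] [Fintype F] (π : G →* F)
    (hπ : Function.Surjective π) (S : Finset G) (h1 : 1 ∈ S) (hgen : ∀ g : G, ∃ n, g ∈ S ^ n)
    (h : Tendsto (fun n : ℕ => ((S ^ (n + 1)).card : ℝ) / (S ^ n).card) atTop (𝓝 1))
    (T : Finset (F × F)) :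
    Tendsto (fun n : ℕ => ((((S ^ n) ×ˢ (S ^ n)).filter (fun p => (π p.1, π p.2) ∈ T)).card : ℝ)
      / ((S ^ n).card : ℝ) ^ 2) atTop (𝓝 (T.card / (Fintype.card F : ℝ) ^ 2)) := by
  have h2 : Tendsto (fun n : ℕ => ∑ t ∈ T,
      ((((S ^ n).filter (fun x => π x = t.1)).card : ℝ) / (S ^ n).card) *
      ((((S ^ n).filter (fun x => π x = t.2)).card : ℝ) / (S ^ n).card)) atTop
      (𝓝 (∑ _t ∈ T, (1 / (Fintype.card F : ℝ)) * (1 / (Fintype.card F : ℝ)))) :=
    tendsto_finsetSum _ fun t _ =>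
      (equidist π hπ S h1 hgen h t.1).mul (equidist π hπ S h1 hgen h t.2)
  have e : (∑ _t ∈ T, (1 / (Fintype.card F : ℝ)) * (1 / (Fintype.card F : ℝ))) =
      T.card / (Fintype.card F : ℝ) ^ 2 := by
    rw [Finset.sum_const, nsmul_eq_mul]
    ring
  rw [e] at h2
  refine h2.congr fun n => ?_
  have h3 : (((S ^ n) ×ˢ (S ^ n)).filter (fun p => (π p.1, π p.2) ∈ T)).card =
      ∑ t ∈ T, ((S ^ n).filter (fun x => π x = t.1)).card *
        ((S ^ n).filter (fun x => π x = t.2)).card := by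
    rw [Finset.card_eq_sum_card_fiberwise (f := fun p : G × G => (π p.1, π p.2)) (t := T)
      (s := ((S ^ n) ×ˢ (S ^ n)).filter (fun p => (π p.1, π p.2) ∈ T))
      (fun p hp => (Finset.mem_filter.1 hp).2)]
    refine Finset.sum_congr rfl fun t ht => ?_
    rw [← Finset.card_product]
    congr 1
    ext ⟨x, y⟩
    simp only [Finset.mem_filter, Finset.mem_product]
    constructor
    · rintro ⟨⟨⟨hx, hy⟩, _⟩, h5⟩
      exact ⟨⟨hx, congrArg Prod.fst h5⟩, hy, congrArg Prod.snd h5⟩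
    · rintro ⟨⟨hx, h5⟩, hy, h6⟩
      have : (π x, π y) = t := Prod.ext h5 h6
      exact ⟨⟨⟨hx, hy⟩, this ▸ ht⟩, this⟩
  rw [h3]
  push_cast
  rw [Finset.sum_div]
  refine Finset.sum_congr rfl fun t _ => ?_
  ring

end Pool.Agent.Lib.MP_13fe47_al
end

-- part Pool.Agent.Lib.MP_13fe47_al.Structure
section

/-!
A fully invariant torsion-free abelian subgroup of finite index, and the count of solutions of
`x y = y φ(x)` in finite quotients.
-/

open Finset

namespace Pool.Agent.Lib.MP_13fe47_al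

variable {G : Type*} [Group G]

/-- The `m`-th powers of a subgroup whose elements commute. -/
def powSub (B : Subgroup G) (hB : ∀ a ∈ B, ∀ b ∈ B, a * b = b * a) (m : ℕ) : Subgroup G where
  carrier := {g | ∃ b ∈ B, b ^ m = g}
  mul_mem' := by
    rintro _ _ ⟨a, ha, rfl⟩ ⟨b, hb, rfl⟩
    exact ⟨a * b, B.mul_mem ha hb, Commute.mul_pow (hB a ha b hb) m⟩
  one_mem' := ⟨1, B.one_mem, one_pow m⟩
  inv_mem' := by
    rintro _ ⟨a, ha, rfl⟩
    exact ⟨a⁻¹, B.inv_mem ha, inv_pow a m⟩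

theorem mem_powSub {B : Subgroup G} {hB : ∀ a ∈ B, ∀ b ∈ B, a * b = b * a} {m : ℕ} {g : G} :
    g ∈ powSub B hB m ↔ ∃ b ∈ B, b ^ m = g := Iff.rfl

theorem powSub_le (B : Subgroup G) (hB : ∀ a ∈ B, ∀ b ∈ B, a * b = b * a) (m : ℕ) :
    powSub B hB m ≤ B := by
  rintro _ ⟨a, ha, rfl⟩
  exact B.pow_mem ha m

/-- The commutative group structure on a subgroup whose elements commute. -/
@[reducible] def commGroupOf (B : Subgroup G) (hB : ∀ a ∈ B, ∀ b ∈ B, a * b = b * a) :
    CommGroup B :=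
  { (inferInstance : Group B) with
    mul_comm := fun a b => Subtype.ext (hB a a.2 b b.2) }

theorem powSub_finiteIndex [Group.FG G] (B : Subgroup G) [B.FiniteIndex]
    (hB : ∀ a ∈ B, ∀ b ∈ B, a * b = b * a) (m : ℕ) (hm : m ≠ 0) :
    (powSub B hB m).FiniteIndex := by
  let _ : CommGroup B := commGroupOf B hB
  have h1 := Subgroup.finiteIndex_range_powMonoidHom_of_fg B hm
  have h2 : (powSub B hB m).subgroupOf B = (powMonoidHom (α := B) m).range := by
    ext x
    rw [Subgroup.mem_subgroupOf, mem_powSub, MonoidHom.mem_range]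
    constructor
    · rintro ⟨b, hb, h⟩
      exact ⟨⟨b, hb⟩, Subtype.ext h⟩
    · rintro ⟨b, h⟩
      exact ⟨b, b.2, congrArg Subtype.val h⟩
  have h3 := Subgroup.relIndex_mul_index (powSub_le B hB m)
  constructor
  rw [← h3]
  refine mul_ne_zero ?_ Subgroup.FiniteIndex.index_ne_zero
  rw [Subgroup.relIndex, h2]
  exact h1.index_ne_zero

/-- Invariance under every endomorphism. -/
def FullyInv (B : Subgroup G) : Prop := ∀ ψ : G →* G, ∀ a ∈ B, ψ a ∈ B

theorem FullyInv.normal {B : Subgroup G} (h : FullyInv B) : B.Normal :=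
  ⟨fun a ha g => h (MulAut.conj g).toMonoidHom a ha⟩

theorem FullyInv.powSub {B : Subgroup G} (h : FullyInv B)
    (hB : ∀ a ∈ B, ∀ b ∈ B, a * b = b * a) (m : ℕ) : FullyInv (powSub B hB m) := by
  rintro ψ _ ⟨a, ha, rfl⟩
  exact ⟨ψ a, h ψ a ha, (map_pow ψ a m).symm⟩

theorem exists_fullyInv [Group.FG G] (H : Subgroup G) [H.FiniteIndex]
    (hH : ∀ a ∈ H, ∀ b ∈ H, a * b = b * a) :
    ∃ B : Subgroup G, B.FiniteIndex ∧ FullyInv B ∧ ∀ a ∈ B, ∀ b ∈ B, a * b = b * a := by
  set k := H.normalCore.index with hk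
  have hk0 : k ≠ 0 := Subgroup.FiniteIndex.index_ne_zero
  have hC : ∀ a ∈ H.normalCore, ∀ b ∈ H.normalCore, a * b = b * a :=
    fun a ha b hb => hH a (H.normalCore_le ha) b (H.normalCore_le hb)
  have hle : Subgroup.closure (Set.range fun g : G => g ^ k) ≤ H.normalCore := by
    rw [Subgroup.closure_le]
    rintro _ ⟨g, rfl⟩
    exact Subgroup.pow_index_mem _ g
  refine ⟨Subgroup.closure (Set.range fun g : G => g ^ k), ?_, ?_,
    fun a ha b hb => hC a (hle ha) b (hle hb)⟩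
  · have := powSub_finiteIndex H.normalCore hC k hk0
    refine Subgroup.finiteIndex_of_le (H := powSub H.normalCore hC k) ?_
    rintro _ ⟨a, _, rfl⟩
    exact Subgroup.subset_closure ⟨a, rfl⟩
  · intro ψ a ha
    have : Subgroup.closure (Set.range fun g : G => g ^ k) ≤
        (Subgroup.closure (Set.range fun g : G => g ^ k)).comap ψ := by
      rw [Subgroup.closure_le]
      rintro _ ⟨g, rfl⟩
      exact Subgroup.subset_closure ⟨ψ g, (map_pow ψ g k).symm⟩
    exact this ha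

theorem exists_exponent (C : Type*) [CommGroup C] [Group.FG C] :
    ∃ e : ℕ, e ≠ 0 ∧ ∀ a : C, a ^ e ≠ 1 → ∃ f : C →* Multiplicative ℤ, f a ≠ 1 := by
  obtain ⟨ι, j, _, _, p, hp, e, ⟨Φ⟩⟩ := CommGroup.equiv_free_prod_prod_multiplicative_zmod C
  have : ∀ i, NeZero (p i ^ e i) := fun i => ⟨pow_ne_zero _ (hp i).ne_zero⟩
  refine ⟨Nat.card ((i : ι) → Multiplicative (ZMod (p i ^ e i))), Nat.card_pos.ne', ?_⟩
  intro a ha
  by_contra hcon
  push Not at hcon
  apply ha
  apply Φ.injective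
  rw [map_pow, map_one]
  refine Prod.ext ?_ ?_
  · have : (Φ a).1 = 1 := by
      funext i
      exact hcon ((Pi.evalMonoidHom (fun _ : j => Multiplicative ℤ) i).comp
        ((MonoidHom.fst _ _).comp Φ.toMonoidHom))
    rw [Prod.pow_fst, this, one_pow, Prod.fst_one]
  · rw [Prod.pow_snd, Prod.snd_one]
    exact pow_card_eq_one'

theorem exists_separating [Group.FG G] (H : Subgroup G) [H.FiniteIndex]
    (hH : ∀ a ∈ H, ∀ b ∈ H, a * b = b * a) :
    ∃ A : Subgroup G, A.FiniteIndex ∧ FullyInv A ∧ (∀ a ∈ A, ∀ b ∈ A, a * b = b * a) ∧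
      ∀ (U : Finset G) (K : ℕ), (∀ u ∈ U, u ∈ A ∧ u ≠ 1) →
        ∃ N : Subgroup G, N.FiniteIndex ∧ FullyInv N ∧ N ≤ A ∧
          ∀ u ∈ U, ∀ j, 1 ≤ j → j ≤ K → u ^ j ∉ N := by
  obtain ⟨B, hB1, hB2, hB⟩ := exists_fullyInv H hH
  let _ : CommGroup B := commGroupOf B hB
  obtain ⟨e, he, hf⟩ := exists_exponent B
  refine ⟨powSub B hB e, powSub_finiteIndex B hB e he, hB2.powSub hB e,
    fun a ha b hb => hB a (powSub_le B hB e ha) b (powSub_le B hB e hb), ?_⟩
  intro U K hU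
  have hex : ∀ u : G, ∃ c : ℕ, u ∈ U → ∀ M, K * c < M → ∀ j, 1 ≤ j → j ≤ K →
      u ^ j ∉ powSub B hB (e * M) := by
    intro u
    by_cases hu : u ∈ U
    swap
    · exact ⟨0, fun h => absurd h hu⟩
    obtain ⟨⟨a, ha, rfl⟩, hne⟩ := hU u hu
    obtain ⟨f, hfa⟩ := hf ⟨a, ha⟩ (fun h => hne (congrArg Subtype.val h))
    refine ⟨(f ⟨a, ha⟩).toAdd.natAbs, fun _ M hM j hj hjK => ?_⟩
    rintro ⟨b, hb, hab⟩
    have h1 : (⟨b, hb⟩ : B) ^ (e * M) = ((⟨a, ha⟩ : B) ^ e) ^ j := Subtype.ext hab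
    have h2 := congrArg (fun x => (f x).toAdd) h1
    simp only [map_pow, toAdd_pow, nsmul_eq_mul] at h2
    set c := (f ⟨a, ha⟩).toAdd with hc
    set t := (f ⟨b, hb⟩).toAdd
    have hc0 : c ≠ 0 := fun h => hfa (by
      rw [← ofAdd_toAdd (f ⟨a, ha⟩), ← hc, h]; rfl)
    have he' : (e : ℤ) ≠ 0 := by exact_mod_cast he
    have h3 : (M : ℤ) * t = j * c := by
      apply mul_left_cancel₀ he'
      push_cast at h2
      linarith
    have h4 := congrArg Int.natAbs h3
    simp only [Int.natAbs_mul, Int.natAbs_natCast] at h4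
    have h5 : 0 < c.natAbs := Int.natAbs_pos.2 hc0
    have h6 : j * c.natAbs ≤ K * c.natAbs := Nat.mul_le_mul_right _ hjK
    have h7 : 0 < j * c.natAbs := Nat.mul_pos hj h5
    rcases Nat.eq_zero_or_pos t.natAbs with h | h
    · rw [h] at h4; omega
    · have : M * 1 ≤ M * t.natAbs := Nat.mul_le_mul_left _ h
      omega
  choose c hc using hex
  refine ⟨powSub B hB (e * (K * U.sup c + 1)),
    powSub_finiteIndex B hB _ (mul_ne_zero he (Nat.succ_ne_zero _)), hB2.powSub hB _, ?_, ?_⟩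
  · rintro _ ⟨b, hb, rfl⟩
    exact ⟨b ^ (K * U.sup c + 1), B.pow_mem hb _, by rw [← pow_mul, mul_comm]⟩
  · intro u hu
    refine hc u hu _ ?_
    have : c u ≤ U.sup c := Finset.le_sup hu
    have := Nat.mul_le_mul_left K this
    omega

/-- The defect of the equation `x y = y φ(x)`. -/
def defect (φ : G →* G) (x y : G) : G := x * y * (φ x)⁻¹ * y⁻¹

/-- The change of the defect under left translation. -/
def shift (φ : G →* G) (x y a b : G) : G := a * (x * b * x⁻¹) * ((y * (φ a)⁻¹ * y⁻¹) * b⁻¹)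

theorem defect_eq_one {φ : G →* G} {x y : G} : defect φ x y = 1 ↔ x * y = y * φ x := by
  unfold defect
  rw [mul_inv_eq_one, mul_inv_eq_iff_eq_mul]

section

variable {A : Subgroup G} (hI : FullyInv A) (hA : ∀ a ∈ A, ∀ b ∈ A, a * b = b * a) (φ : G →* G)
include hI hA

omit hA in
theorem shift_mem {x y a b : G} (ha : a ∈ A) (hb : b ∈ A) : shift φ x y a b ∈ A :=
  A.mul_mem (A.mul_mem ha (hI.normal.conj_mem b hb x))
    (A.mul_mem (hI.normal.conj_mem _ (A.inv_mem (hI φ a ha)) y) (A.inv_mem hb))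

omit hI in
theorem conj_congr {x x' b : G} (h : (x : G ⧸ A) = x') (hb : b ∈ A) :
    x * b * x⁻¹ = x' * b * x'⁻¹ := by
  rw [QuotientGroup.eq] at h
  have := hA _ h b hb
  calc x * b * x⁻¹ = x * (b * (x⁻¹ * x')) * x'⁻¹ := by group
    _ = x * ((x⁻¹ * x') * b) * x'⁻¹ := by rw [this]
    _ = _ := by group

theorem shift_congr {x x' y y' a b : G} (hx : (x : G ⧸ A) = x') (hy : (y : G ⧸ A) = y')
    (ha : a ∈ A) (hb : b ∈ A) : shift φ x y a b = shift φ x' y' a b := by
  unfold shift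
  rw [conj_congr hA hx hb, conj_congr hA hy (A.inv_mem (hI φ a ha))]

theorem defect_shift {x y a b : G} (ha : a ∈ A) (hb : b ∈ A) (hw : defect φ x y ∈ A) :
    defect φ (a * x) (b * y) = shift φ x y a b * defect φ x y := by
  have h1 : (y * (φ a)⁻¹ * y⁻¹) * b⁻¹ ∈ A :=
    A.mul_mem (hI.normal.conj_mem _ (A.inv_mem (hI φ a ha)) y) (A.inv_mem hb)
  have h2 := hA _ h1 _ hw
  unfold shift
  rw [mul_assoc (a * (x * b * x⁻¹)), h2]
  unfold defect
  rw [map_mul]
  group

omit hA in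
theorem mk_mul_left {x a : G} (ha : a ∈ A) : ((a * x : G) : G ⧸ A) = x := by
  rw [QuotientGroup.eq]
  have := hI.normal.conj_mem _ (A.inv_mem ha) x⁻¹
  simpa [mul_assoc] using this

theorem defect_shift_pow {x y a b : G} (ha : a ∈ A) (hb : b ∈ A) (hw : defect φ x y ∈ A)
    (j : ℕ) : defect φ (a ^ j * x) (b ^ j * y) = shift φ x y a b ^ j * defect φ x y := by
  induction j with
  | zero => simp
  | succ j ih =>
    have hm : defect φ (a ^ j * x) (b ^ j * y) ∈ A := by
      rw [ih]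
      exact A.mul_mem (A.pow_mem (shift_mem hI φ ha hb) j) hw
    rw [pow_succ', pow_succ', pow_succ', mul_assoc, mul_assoc, defect_shift hI hA φ ha hb hm, ih,
      shift_congr hI hA φ (mk_mul_left hI (A.pow_mem ha j)) (mk_mul_left hI (A.pow_mem hb j))
        ha hb, mul_assoc]

end

theorem exists_good_quot [Group.FG G] (H : Subgroup G) [H.FiniteIndex]
    (hH : ∀ a ∈ H, ∀ b ∈ H, a * b = b * a) (φ : G →* G) (K : ℕ) :
    ∃ (N : Subgroup G) (_ : N.Normal) (_ : N.FiniteIndex) (h : N ≤ N.comap φ),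
      K * Set.ncard {p : (G ⧸ N) × (G ⧸ N) |
        p.1 * p.2 = p.2 * QuotientGroup.map N N φ h p.1 ∧
          ¬ ∀ x y : G, (x : G ⧸ N) = p.1 → (y : G ⧸ N) = p.2 → x * y = y * φ x}
        ≤ Nat.card (G ⧸ N) ^ 2 := by
  classical
  obtain ⟨A, hA1, hI, hA, hsep⟩ := exists_separating H hH
  have hAn := hI.normal
  have : Fintype (G ⧸ A) := Fintype.ofFinite _
  have hex : ∀ t : (G ⧸ A) × (G ⧸ A), ∃ a ∈ A, ∃ b ∈ A,
      (∃ a' ∈ A, ∃ b' ∈ A, shift φ t.1.out t.2.out a' b' ≠ 1) →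
        shift φ t.1.out t.2.out a b ≠ 1 := by
    intro t
    by_cases h : ∃ a' ∈ A, ∃ b' ∈ A, shift φ t.1.out t.2.out a' b' ≠ 1
    · obtain ⟨a, ha, b, hb, h⟩ := h
      exact ⟨a, ha, b, hb, fun _ => h⟩
    · exact ⟨1, A.one_mem, 1, A.one_mem, fun h' => absurd h' h⟩
  choose a ha b hb hab using hex
  let u : (G ⧸ A) × (G ⧸ A) → G := fun t => shift φ t.1.out t.2.out (a t) (b t)
  let w : (G ⧸ A) × (G ⧸ A) → G := fun t => defect φ t.1.out t.2.out
  obtain ⟨N, hN1, hNI, hNA, hN⟩ := hsep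
    ((Finset.univ.image u ∪ Finset.univ.image w).filter (fun g => g ∈ A ∧ g ≠ 1)) (K + 1)
    (fun g hg => (Finset.mem_filter.1 hg).2)
  have hNn := hNI.normal
  have hφ : N ≤ N.comap φ := fun g hg => hNI φ g hg
  refine ⟨N, hNn, hN1, hφ, ?_⟩
  set ψ := QuotientGroup.map N N φ hφ with hψ
  have hq : ∀ x y : G, ((defect φ x y : G) : G ⧸ N) = defect ψ (x : G ⧸ N) (y : G ⧸ N) := by
    intro x y
    simp [defect, hψ]
  have hNAq : ∀ x y : G, (x : G ⧸ N) = y → (x : G ⧸ A) = y := by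
    intro x y h
    rw [QuotientGroup.eq] at h ⊢
    exact hNA h
  let τ : (G ⧸ N) × (G ⧸ N) → (G ⧸ A) × (G ⧸ A) :=
    fun p => ((p.1.out : G ⧸ A), (p.2.out : G ⧸ A))
  set Bad := {p : (G ⧸ N) × (G ⧸ N) | p.1 * p.2 = p.2 * ψ p.1 ∧
    ¬ ∀ x y : G, (x : G ⧸ N) = p.1 → (y : G ⧸ N) = p.2 → x * y = y * φ x} with hBad
  have hwN : ∀ p ∈ Bad, defect φ p.1.out p.2.out ∈ N := by
    intro p hp
    rw [← QuotientGroup.eq_one_iff, hq, QuotientGroup.out_eq', QuotientGroup.out_eq',
      defect_eq_one]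
    exact hp.1
  have hu_eq : ∀ p : (G ⧸ N) × (G ⧸ N),
      shift φ p.1.out p.2.out (a (τ p)) (b (τ p)) = u (τ p) := by
    intro p
    exact shift_congr hI hA φ (QuotientGroup.out_eq' _).symm (QuotientGroup.out_eq' _).symm
      (ha _) (hb _)
  have hu_ne : ∀ p ∈ Bad, u (τ p) ≠ 1 := by
    intro p hp
    apply hab
    by_contra hcon
    push Not at hcon
    apply hp.2
    have hconst : ∀ x y x' y' : G, (x : G ⧸ A) = (τ p).1 → (y : G ⧸ A) = (τ p).2 →
        (x' : G ⧸ A) = (τ p).1 → (y' : G ⧸ A) = (τ p).2 → defect φ x y ∈ A →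
        defect φ x' y' = defect φ x y := by
      intro x y x' y' hx hy hx' hy' hw
      have h1 : x' * x⁻¹ ∈ A := by
        rw [← QuotientGroup.eq_one_iff, QuotientGroup.mk_mul, QuotientGroup.mk_inv, hx, hx',
          mul_inv_cancel]
      have h2 : y' * y⁻¹ ∈ A := by
        rw [← QuotientGroup.eq_one_iff, QuotientGroup.mk_mul, QuotientGroup.mk_inv, hy, hy',
          mul_inv_cancel]
      have h3 := defect_shift hI hA φ h1 h2 hw
      rw [inv_mul_cancel_right, inv_mul_cancel_right,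
        shift_congr hI hA φ (hx.trans (QuotientGroup.out_eq' _).symm)
          (hy.trans (QuotientGroup.out_eq' _).symm) h1 h2, hcon _ h1 _ h2, one_mul] at h3
      exact h3
    have hw0 := hwN p hp
    have h4 : w (τ p) = defect φ p.1.out p.2.out :=
      hconst _ _ _ _ rfl rfl (QuotientGroup.out_eq' _) (QuotientGroup.out_eq' _) (hNA hw0)
    have h5 : defect φ p.1.out p.2.out = 1 := by
      by_contra hne
      refine hN (w (τ p)) ?_ 1 le_rfl (by omega) (by rw [pow_one, h4]; exact hw0)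
      rw [Finset.mem_filter]
      refine ⟨Finset.mem_union_right _ (Finset.mem_image_of_mem _ (Finset.mem_univ _)), ?_⟩
      rw [h4]
      exact ⟨hNA hw0, hne⟩
    intro x y hx hy
    rw [← defect_eq_one, ← h5]
    exact hconst _ _ _ _ rfl rfl (hNAq _ _ (hx.trans (QuotientGroup.out_eq' _).symm))
      (hNAq _ _ (hy.trans (QuotientGroup.out_eq' _).symm)) (hNA hw0)
  have hu_pow : ∀ p ∈ Bad, ∀ j, 1 ≤ j → j ≤ K → u (τ p) ^ j ∉ N := by
    intro p hp j hj hjK
    refine hN _ ?_ j hj (by omega)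
    rw [Finset.mem_filter]
    exact ⟨Finset.mem_union_left _ (Finset.mem_image_of_mem _ (Finset.mem_univ _)),
      shift_mem hI φ (ha _) (hb _), hu_ne p hp⟩
  let Ψ : Fin K × Bad → (G ⧸ N) × (G ⧸ N) := fun z =>
    (((a (τ z.2) ^ (z.1 : ℕ) * z.2.1.1.out : G) : G ⧸ N),
      ((b (τ z.2) ^ (z.1 : ℕ) * z.2.1.2.out : G) : G ⧸ N))
  have hΨ : Function.Injective Ψ := by
    rintro ⟨i, p, hp⟩ ⟨j, p', hp'⟩ h
    simp only [Ψ, Prod.mk.injEq] at h
    obtain ⟨h1, h2⟩ := h
    have ht : τ p = τ p' := by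
      refine Prod.ext ?_ ?_
      · have := hNAq _ _ h1
        rwa [mk_mul_left hI (A.pow_mem (ha _) _), mk_mul_left hI (A.pow_mem (ha _) _)] at this
      · have := hNAq _ _ h2
        rwa [mk_mul_left hI (A.pow_mem (hb _) _), mk_mul_left hI (A.pow_mem (hb _) _)] at this
    have h3 : ((u (τ p) : G) : G ⧸ N) ^ (i : ℕ) = ((u (τ p) : G) : G ⧸ N) ^ (j : ℕ) := by
      have e1 := defect_shift_pow hI hA φ (ha (τ p)) (hb (τ p)) (hNA (hwN p hp)) i
      have e2 := defect_shift_pow hI hA φ (ha (τ p')) (hb (τ p')) (hNA (hwN p' hp')) j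
      rw [hu_eq] at e1 e2
      have e3 := congrArg (fun g : G => (g : G ⧸ N)) e1
      have e4 := congrArg (fun g : G => (g : G ⧸ N)) e2
      rw [hq, QuotientGroup.mk_mul N (u (τ p) ^ (i : ℕ)), QuotientGroup.mk_pow,
        (QuotientGroup.eq_one_iff _).2 (hwN p hp), mul_one] at e3
      rw [hq, QuotientGroup.mk_mul N (u (τ p') ^ (j : ℕ)), QuotientGroup.mk_pow,
        (QuotientGroup.eq_one_iff _).2 (hwN p' hp'), mul_one] at e4
      rw [← e3, h1, h2, e4, ht]
    have key : ∀ i j : Fin K, (i : ℕ) < j →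
        ((u (τ p) : G) : G ⧸ N) ^ (i : ℕ) ≠ ((u (τ p) : G) : G ⧸ N) ^ (j : ℕ) := by
      intro i j hij h
      refine hu_pow p hp (j - i) (by omega) (by have := j.2; omega) ?_
      rw [← QuotientGroup.eq_one_iff, QuotientGroup.mk_pow]
      have e : (j : ℕ) = i + (j - i) := by omega
      rw [e, pow_add] at h
      exact (mul_eq_left.1 h.symm)
    have hij : i = j := by
      rcases lt_trichotomy (i : ℕ) j with h | h | h
      · exact absurd h3 (key i j h)
      · exact Fin.ext h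
      · exact absurd h3.symm (key j i h)
    subst hij
    rw [ht, QuotientGroup.mk_mul, QuotientGroup.mk_mul, mul_right_inj, QuotientGroup.out_eq',
      QuotientGroup.out_eq'] at h1 h2
    have : p = p' := Prod.ext h1 h2
    subst this
    rfl
  have := Nat.card_le_card_of_injective Ψ hΨ
  rw [Nat.card_prod, Nat.card_prod, Nat.card_eq_fintype_card, Fintype.card_fin,
    Nat.card_coe_set_eq] at this
  rw [sq]
  exact this

end Pool.Agent.Lib.MP_13fe47_al
end
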